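import Pool.Agent.Helper95.TT.St

/-!
# TT, module A5: quadratic character and point counts
-/

set_option autoImplicit false

open NumberField IsDedekindDomain Polynomial Filter Topology
open scoped Classical

noncomputable section

namespace Pool.Agent.Helper92.TT

open Pool.Agent.Helper95.TT

section fin

variable {κ : Type} [Field κ] [Fintype κ]

theorem card_sq (hF : ringChar κ ≠ 2) (a : κ) :
    (Nat.card {z : κ // z ^ 2 = a} : ℤ) = quadraticChar κ a + 1 := by
  have h := quadraticChar_card_sqrts hF a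
  rw [← h, Nat.card_eq_fintype_card, Fintype.card_subtype]
  congr 2
  ext z
  simp

/-- fibration over the first coordinate -/
def fib (h : κ → κ) : {z : κ × κ // z.2 ^ 2 = h z.1} ≃ Σ x : κ, {y : κ // y ^ 2 = h x} where
  toFun z := ⟨z.1.1, ⟨z.1.2, z.2⟩⟩
  invFun z := ⟨(z.1, z.2.1), z.2.2⟩
  left_inv _ := rfl
  right_inv _ := rfl

theorem card_curve (hF : ringChar κ ≠ 2) (h : κ → κ) :
    (Nat.card {z : κ × κ // z.2 ^ 2 = h z.1} : ℤ) = ∑ x : κ, (quadraticChar κ (h x) + 1) := by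
  rw [Nat.card_congr (fib h), Nat.card_sigma]
  push_cast
  exact Finset.sum_congr rfl fun x _ => card_sq hF (h x)

theorem core {R : Type} [CommRing R] (hF : ringChar κ ≠ 2) (φ : R →+* κ) (D : R) (f : R[X]) :
    ((Nat.card κ : ℤ) + 1 -
      ((Nat.card {z : κ × κ // z.2 ^ 2 = φ D * (f.map φ).eval z.1} +
        if Even f.natDegree then Nat.card {z : κ // z ^ 2 = φ (D * f.leadingCoeff)} else 1 : ℕ) : ℤ)) =
    -(quadraticChar κ (φ D) * ((∑ x : κ, quadraticChar κ ((f.map φ).eval x)) +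
      if Even f.natDegree then quadraticChar κ (φ f.leadingCoeff) else 0)) := by
  have h1 := card_curve hF (fun x => φ D * (f.map φ).eval x)
  have h2 := card_sq hF (φ (D * f.leadingCoeff))
  push_cast
  rw [h1, h2, Finset.sum_add_distrib]
  simp only [map_mul, Finset.sum_const, Finset.card_univ, nsmul_eq_mul, mul_one,
    Nat.card_eq_fintype_card]
  rw [← Finset.mul_sum]
  split_ifs with h
  · ring
  · ring

end fin

theorem ifs {α : Prop} {β γ δ : Prop} (h1 : α ↔ γ) (h2 : β ↔ δ) :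
    (if α then (0 : ℝ) else if β then 1 else -1) =
      (((if γ then (0 : ℤ) else if δ then 1 else -1 : ℤ)) : ℝ) := by
  by_cases ha : α
  · rw [if_pos ha, if_pos (h1.mp ha)]; simp
  · rw [if_neg ha, if_neg (fun h => ha (h1.mpr h))]
    by_cases hb : β
    · rw [if_pos hb, if_pos (h2.mp hb)]; simp
    · rw [if_neg hb, if_neg (fun h => hb (h2.mpr h))]; simp

/-- the symbol is the quadratic character of the residue field -/
theorem chi_eq (k : Type) [Field k] [NumberField k] (v : Pr k) (h2 : (2 : 𝓞 k) ∉ v.asIdeal)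
    (hm : v.asIdeal.IsMaximal) (inst2 : Fintype (𝓞 k ⧸ v.asIdeal)) (D : 𝓞 k) :
    chi D v = ((@quadraticChar (𝓞 k ⧸ v.asIdeal) (Ideal.Quotient.field v.asIdeal) inst2
      (Classical.decEq _) (Ideal.Quotient.mk v.asIdeal D) : ℤ) : ℝ) := by
  rw [quadraticChar_apply]
  unfold quadraticCharFun chi
  have e1 : (2 * D ∈ v.asIdeal) ↔ (Ideal.Quotient.mk v.asIdeal D = 0) := by
    rw [Ideal.Quotient.eq_zero_iff_mem]
    constructor
    · intro h
      rcases v.isPrime.mem_or_mem h with h' | h'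
      · exact absurd h' h2
      · exact h'
    · intro h
      exact Ideal.mul_mem_left _ _ h
  have e2 : (∃ a : 𝓞 k, a ^ 2 - D ∈ v.asIdeal) ↔ IsSquare (Ideal.Quotient.mk v.asIdeal D) := by
    constructor
    · rintro ⟨a, ha⟩
      refine ⟨Ideal.Quotient.mk v.asIdeal a, ?_⟩
      have := Ideal.Quotient.eq.mpr ha
      rw [← this, pow_two, map_mul]
    · rintro ⟨b, hb⟩
      obtain ⟨a, rfl⟩ := Ideal.Quotient.mk_surjective b
      refine ⟨a, ?_⟩
      rw [← Ideal.Quotient.eq, hb, pow_two, map_mul]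
  have h := ifs e1 e2
  convert h

/-- A5. -/
theorem hA5 : StA5 := by
  intro k _ _ v h2
  have : v.asIdeal.IsMaximal := v.isMaximal
  let inst : Field (𝓞 k ⧸ v.asIdeal) := Ideal.Quotient.field v.asIdeal
  have hfin : Finite (𝓞 k ⧸ v.asIdeal) := Ideal.finiteQuotientOfFreeOfNeBot v.asIdeal v.ne_bot
  let inst2 : Fintype (𝓞 k ⧸ v.asIdeal) := Fintype.ofFinite _
  have hchi := chi_eq k v h2 this inst2
  have hchar : ringChar (𝓞 k ⧸ v.asIdeal) ≠ 2 := by
    intro h
    apply h2
    rw [← Ideal.Quotient.eq_zero_iff_mem]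
    have h3 : ((2 : ℕ) : 𝓞 k ⧸ v.asIdeal) = 0 := by
      rw [ringChar.spec, h]
    have h4 : (Ideal.Quotient.mk v.asIdeal) ((2 : ℕ) : 𝓞 k) = 0 := by
      rw [map_natCast]; exact h3
    rw [Nat.cast_ofNat] at h4
    exact h4
  refine ⟨fun D E => ?_, fun D f _ => ?_⟩
  · rw [hchi, hchi, hchi]
    rw [map_mul, map_mul]
    push_cast
    ring
  · have hq : q v = Nat.card (𝓞 k ⧸ v.asIdeal) := by
      unfold q
      rw [Ideal.absNorm_apply, Submodule.cardQuot_apply]
    have hc : ∀ D : 𝓞 k, tr D f v = -((quadraticChar (𝓞 k ⧸ v.asIdeal)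
        (Ideal.Quotient.mk v.asIdeal D)) *
        ((∑ x : (𝓞 k ⧸ v.asIdeal), quadraticChar (𝓞 k ⧸ v.asIdeal)
          ((f.map (Ideal.Quotient.mk v.asIdeal)).eval x)) +
      if Even f.natDegree then quadraticChar (𝓞 k ⧸ v.asIdeal)
        (Ideal.Quotient.mk v.asIdeal f.leadingCoeff) else 0)) := by
      intro D
      have := core (κ := 𝓞 k ⧸ v.asIdeal) hchar (Ideal.Quotient.mk v.asIdeal) D f
      rw [← this]
      unfold tr pts
      rw [hq]
    rw [hc D, hc 1, hchi D]
    have h1 : quadraticChar (𝓞 k ⧸ v.asIdeal) (Ideal.Quotient.mk v.asIdeal 1) = 1 := by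
      rw [map_one, map_one]
    rw [h1]
    push_cast
    ring

end Pool.Agent.Helper92.TT
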